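import Pool.Agent.H.MP_5aad23_co.Tree

namespace Pool.Agent.H.MP_d8535d_co
open Finset Equiv Filter Topology Pool.Agent.H.MP_5aad23_co

/-- the first `k` and the last `k` entries have the same reduction -/
def Ov {n : ℕ} (τ : Perm (Fin n)) (k : ℕ) : Prop :=
  ∀ i j, i < k → j < k → (ext0 τ i < ext0 τ j ↔ ext0 τ (n - k + i) < ext0 τ (n - k + j))

def MinOv {n : ℕ} (τ : Perm (Fin n)) : Prop := ¬ ∃ k, 2 ≤ k ∧ k ≤ n - 1 ∧ Ov τ k

open Classical in
/-- proportion of minimal overlapping permutations among those starting with `m` -/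
noncomputable def p (n m : ℕ) : ℝ :=
  #(univ.filter fun τ : Perm (Fin n) => MinOv τ ∧ ext0 τ 0 + 1 = m) / (n - 1).factorial

lemma fixcard {n : ℕ} (S : Finset (Fin n)) :
    #(univ.filter fun σ : Perm (Fin n) => ∀ x, x ∉ S → σ x = x) = (#S).factorial := by
  rw [← Fintype.card_subtype, ← Fintype.card_congr (Perm.subtypeEquivSubtypePerm (· ∈ S)),
    Fintype.card_perm, Fintype.card_coe]

lemma short {n : ℕ} (τ : Perm (Fin n)) (h : ¬ MinOv τ) :
    ∃ k, 2 ≤ k ∧ 2 * k ≤ n + 1 ∧ Ov τ k := by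
  obtain ⟨k, h1, h2, h3⟩ := not_not.1 h
  induction k using Nat.strong_induction_on with
  | _ k ih =>
    by_cases hk : 2 * k ≤ n + 1
    · exact ⟨k, h1, hk, h3⟩
    · refine ih (2 * k - n) (by omega) (by omega) (by omega) fun i j hi hj => ?_
      rw [h3 i j (by omega) (by omega), h3 (n - k + i) (n - k + j) (by omega) (by omega),
        show n - k + (n - k + i) = n - (2 * k - n) + i by omega,
        show n - k + (n - k + j) = n - (2 * k - n) + j by omega]

open Classical in
lemma count {n : ℕ} (k : ℕ) (h1 : 2 ≤ k) (h2 : 2 * k ≤ n + 1) (a b u v : Fin n) (hab : a ≠ b)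
    (ha : a.val < k) (hb : b.val < k) :
    #(univ.filter fun τ : Perm (Fin n) => τ a = u ∧ τ b = v ∧ Ov τ k) * (k - 1).factorial ≤
      (n - 2).factorial := by
  set B : Finset (Fin n) := univ.filter fun x => n - k < x.val with hB
  have hc : #B = k - 1 := by
    rw [← card_map Fin.valEmbedding, show k - 1 = #(Ioo (n - k) n) by simp; omega]
    congr 1
    ext x
    simp only [hB, Finset.mem_map, mem_filter, mem_univ, true_and, Fin.valEmbedding_apply, mem_Ioo]
    exact ⟨fun ⟨y, h, e⟩ => e ▸ ⟨h, y.2⟩, fun h => ⟨⟨x, h.2⟩, h.1, rfl⟩⟩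
  rcases (univ.filter fun τ : Perm (Fin n) => τ a = u ∧ τ b = v ∧ Ov τ k).eq_empty_or_nonempty
    with h | ⟨τ₀, h0⟩
  · simp [h]
  obtain ⟨g1, g2, -⟩ := (mem_filter.1 h0).2
  have hc2 : #(({a, b} : Finset (Fin n))ᶜ) = n - 2 := by
    rw [card_compl, card_pair hab, Fintype.card_fin]
  rw [← hc, ← hc2, ← fixcard, ← fixcard, ← card_product]
  refine card_le_card_of_injOn (fun q => τ₀⁻¹ * (q.1 * q.2)) (fun q hq => ?_) ?_
  · obtain ⟨k1, k2⟩ := mem_product.1 (mem_coe.1 hq)
    obtain ⟨k3, k4, -⟩ := (mem_filter.1 k1).2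
    refine mem_coe.2 (mem_filter.2 ⟨mem_univ _, fun x hx => ?_⟩)
    have hx : x = a ∨ x = b := by simpa [or_iff_not_imp_left] using hx
    rw [Perm.mul_apply, Perm.mul_apply, (mem_filter.1 k2).2 x
      (by rcases hx with rfl | rfl <;> simp [hB] <;> omega), Perm.inv_eq_iff_eq]
    rcases hx with rfl | rfl
    exacts [k3.trans g1.symm, k4.trans g2.symm]
  · rintro ⟨τ, ρ⟩ hq ⟨τ', ρ'⟩ hq' e
    obtain ⟨k1, k2⟩ := mem_product.1 (mem_coe.1 hq)
    obtain ⟨k3, k4⟩ := mem_product.1 (mem_coe.1 hq')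
    have o1 : Ov τ k := (mem_filter.1 k1).2.2.2
    have o2 : Ov τ' k := (mem_filter.1 k3).2.2.2
    have f1 : ∀ x, x ∉ B → ρ x = x := (mem_filter.1 k2).2
    have f2 : ∀ x, x ∉ B → ρ' x = x := (mem_filter.1 k4).2
    have e : τ * ρ = τ' * ρ' := mul_left_cancel e
    have hσ : ∀ x, x ∉ B → (ρ' * ρ⁻¹) x = x := fun x hx => by
      rw [Perm.mul_apply, Perm.inv_eq_iff_eq.2 (f1 x hx).symm, f2 x hx]
    have eτ : ∀ x, τ x = τ' ((ρ' * ρ⁻¹) x) := fun x => by
      rw [← Perm.mul_apply, ← mul_assoc, ← e]; simp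
    generalize ρ' * ρ⁻¹ = σ at hσ eτ
    have hm : ∀ x ∈ B, σ x ∈ B := fun x hx => by
      by_contra hc
      exact hc ((σ.injective (hσ _ hc)).symm ▸ hx)
    have ho : ∀ x ∈ B, ∀ y ∈ B, τ' (σ x) < τ' (σ y) ↔ τ' x < τ' y := by
      intro x hx y hy
      have hx := (mem_filter.1 hx).2
      have hy := (mem_filter.1 hy).2
      have := x.2
      have := y.2
      have l1 := o1 (x - (n - k)) (y - (n - k)) (by omega) (by omega)
      have l2 := o2 (x - (n - k)) (y - (n - k)) (by omega) (by omega)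
      have l3 : ∀ i, i < k → ext0 τ i = ext0 τ' i := fun i hi => by
        rw [ext0_lt _ i (by omega), ext0_lt _ i (by omega), eτ, hσ _ (by simp [hB]; omega)]
      rw [l3 _ (by omega), l3 _ (by omega), l2, show n - k + (x - (n - k)) = x by omega,
        show n - k + (y - (n - k)) = y by omega] at l1
      simp only [ext0_fin, eτ] at l1
      exact l1.symm
    have hid : ∀ x, σ x = x := by
      intro x
      by_cases hx : x ∈ B
      swap
      · exact hσ x hx
      have hp : ∀ i : ℕ, (σ ^ i) x ∈ B := fun i => by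
        induction i with
        | zero => exact hx
        | succ i ih => rw [pow_succ', Perm.mul_apply]; exact hm _ ih
      rcases lt_trichotomy (τ' x) (τ' (σ x)) with h | h | h
      · refine absurd (strictMono_nat_of_lt_succ (f := fun i => τ' ((σ ^ i) x)) fun i => ?_)
          (not_strictMono_of_wellFoundedGT _)
        induction i with
        | zero => exact h
        | succ i ih =>
          simp only [pow_succ' σ (i + 1), Perm.mul_apply]
          nth_rewrite 1 [pow_succ']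
          exact (ho _ (hp _) _ (hp _)).2 ih
      · exact (τ'.injective h).symm
      · refine absurd (strictAnti_nat_of_succ_lt (f := fun i => τ' ((σ ^ i) x)) fun i => ?_)
          (not_strictAnti_of_wellFoundedLT _)
        induction i with
        | zero => exact h
        | succ i ih =>
          simp only [pow_succ' σ (i + 1), Perm.mul_apply]
          nth_rewrite 2 [pow_succ']
          exact (ho _ (hp _) _ (hp _)).2 ih
    have : τ = τ' := Equiv.ext fun x => by rw [eτ, hid]
    subst this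
    rw [mul_left_cancel e]

lemma swap_lt {n : ℕ} (u v x y : Fin n) (h : u.val + 1 = v ∨ v.val + 1 = u)
    (g : (x ≠ u ∧ y ≠ u) ∨ (x ≠ v ∧ y ≠ v)) : swap u v x < swap u v y ↔ x < y := by
  simp only [swap_apply_def, Ne, Fin.ext_iff] at g ⊢
  split_ifs <;> simp only [Fin.lt_def] <;> omega

open Classical in
lemma bad {n : ℕ} (u v : Fin (n + 2)) (h : u.val + 1 = v ∨ v.val + 1 = u) :
    (#(univ.filter fun τ : Perm (Fin (n + 2)) => τ 0 = u ∧ ¬ MinOv τ ∧ MinOv (swap u v * τ)) : ℝ)
      ≤ Real.exp 1 * n.factorial := by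
  have hs : (univ.filter fun τ : Perm (Fin (n + 2)) => τ 0 = u ∧ ¬ MinOv τ ∧ MinOv (swap u v * τ))
      ⊆ ((range (n + 2)).filter fun i => 2 * (i + 2) ≤ n + 3).biUnion fun i =>
        (univ.filter fun b : Fin (n + 2) => 0 < b.val ∧ b.val < i + 2).biUnion fun b =>
          univ.filter fun τ => τ 0 = u ∧ τ b = v ∧ Ov τ (i + 2) := by
    intro τ hτ
    obtain ⟨h1, h2, h3⟩ := (mem_filter.1 hτ).2
    obtain ⟨k, k1, k2, k3⟩ := short τ h2
    obtain ⟨i, rfl⟩ := Nat.exists_eq_add_of_le' k1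
    obtain ⟨b, rfl⟩ := τ.surjective v
    have hb : 0 < b.val := by
      by_contra hc
      rw [← h1, show b = 0 from Fin.ext (by simpa using hc)] at h
      omega
    simp only [mem_biUnion, mem_filter, mem_range, mem_univ, true_and]
    refine ⟨i, ⟨by omega, k2⟩, b, ⟨hb, ?_⟩, h1, rfl, k3⟩
    by_contra hc
    refine h3 ⟨i + 2, k1, by omega, fun x y hx hy => ?_⟩
    have := k3 x y hx hy
    rw [ext0_lt _ x (by omega), ext0_lt _ y (by omega), ext0_lt _ (_ + x) (by omega),
      ext0_lt _ (_ + y) (by omega)] at this ⊢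
    simp only [Perm.mul_apply, Fin.val_fin_lt] at this ⊢
    rw [swap_lt _ _ _ _ h (Or.inr _), swap_lt _ _ _ _ h (Or.inl _), this]
    · rw [← h1]
      simp only [Ne, τ.injective.eq_iff, Fin.ext_iff, Fin.val_zero]; omega
    · simp only [Ne, τ.injective.eq_iff, Fin.ext_iff]; omega
  refine (Nat.cast_le.2 ((card_le_card hs).trans card_biUnion_le)).trans ?_
  refine le_trans ?_ (mul_le_mul_of_nonneg_right
    (Real.sum_le_exp_of_nonneg zero_le_one (n + 2)) (Nat.cast_nonneg _))
  rw [Nat.cast_sum, sum_mul, sum_filter]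
  refine sum_le_sum fun i _ => ?_
  split_ifs with hi
  swap
  · positivity
  refine (Nat.cast_le.2 card_biUnion_le).trans ?_
  rw [Nat.cast_sum]
  refine (sum_le_card_nsmul _ _ ((n.factorial : ℝ) / (i + 1).factorial) fun b hb => ?_).trans ?_
  · obtain ⟨h1, h2⟩ := (mem_filter.1 hb).2
    rw [le_div_iff₀ (by positivity)]
    exact_mod_cast count (i + 2) (by omega) hi 0 b u v (fun e => by simp [← e] at h1)
      (by simp) h2
  · have : #(univ.filter fun b : Fin (n + 2) => 0 < b.val ∧ b.val < i + 2) ≤ i + 1 := by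
      rw [← card_map Fin.valEmbedding, show i + 1 = #(Ioo 0 (i + 2)) by simp]
      refine card_le_card fun x hx => ?_
      obtain ⟨y, h, rfl⟩ := Finset.mem_map.1 hx
      exact mem_Ioo.2 (mem_filter.1 h).2
    rw [nsmul_eq_mul]
    refine (mul_le_mul_of_nonneg_right (Nat.cast_le.2 this) (by positivity)).trans (le_of_eq ?_)
    rw [Nat.factorial_succ, one_pow]
    push_cast
    field_simp

lemma one_side {n : ℕ} (u v : Fin (n + 2)) (h : u.val + 1 = v ∨ v.val + 1 = u) :
    p (n + 2) (v + 1) - p (n + 2) (u + 1) ≤ Real.exp 1 / (n + 1) := by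
  classical
  have hb := bad u v h
  have key : #(univ.filter fun τ : Perm (Fin (n + 2)) => MinOv τ ∧ ext0 τ 0 + 1 = v + 1) ≤
      #(univ.filter fun τ : Perm (Fin (n + 2)) => MinOv τ ∧ ext0 τ 0 + 1 = u + 1) +
      #(univ.filter fun τ : Perm (Fin (n + 2)) =>
        τ 0 = u ∧ ¬ MinOv τ ∧ MinOv (swap u v * τ)) := by
    refine le_trans ?_ (card_union_le _ _)
    refine card_le_card_of_injOn (fun τ => swap u v * τ) (fun τ hτ => ?_)
      fun _ _ _ _ e => mul_left_cancel e
    obtain ⟨h1, h2⟩ := (mem_filter.1 (mem_coe.1 hτ)).2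
    have h3 : τ 0 = v := Fin.ext (by rw [← ext0_fin]; simpa using h2)
    have h4 : (swap u v * τ) 0 = u := by simp [h3]
    simp only [coe_union, Set.mem_union, mem_coe, mem_filter, mem_univ, true_and,
      swap_mul_self_mul]
    by_cases g : MinOv (swap u v * τ)
    · exact Or.inl ⟨g, congrArg (· + 1) ((ext0_fin _ 0).trans (congrArg Fin.val h4))⟩
    · exact Or.inr ⟨h4, g, h1⟩
  have key' := (Nat.cast_le (α := ℝ)).2 key
  rw [p, p, ← sub_div, show n + 2 - 1 = n + 1 by omega, Nat.factorial_succ,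
    div_le_div_iff₀ (by positivity) (by positivity)]
  push_cast at key' ⊢
  nlinarith [show (0 : ℝ) ≤ n + 1 by positivity]

lemma step (m : ℕ) : Tendsto (fun n => p n (m + 1) - p n (m + 2)) atTop (𝓝 0) := by
  rw [← tendsto_add_atTop_iff_nat 2]
  have h0 : Tendsto (fun n : ℕ => Real.exp 1 / ((n : ℝ) + 1)) atTop (𝓝 0) :=
    tendsto_const_nhds.div_atTop (tendsto_natCast_atTop_atTop.atTop_add tendsto_const_nhds)
  refine squeeze_zero_norm' ?_ h0
  filter_upwards [eventually_ge_atTop m] with n hn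
  have h1 := one_side (n := n) ⟨m, by omega⟩ ⟨m + 1, by omega⟩ (Or.inl rfl)
  have h2 := one_side (n := n) ⟨m + 1, by omega⟩ ⟨m, by omega⟩ (Or.inr rfl)
  rw [Real.norm_eq_abs, abs_le]
  constructor <;> linarith

theorem main (a b : ℕ) (ha : 1 ≤ a) (hb : 1 ≤ b) :
    Tendsto (fun n => p n a - p n b) atTop (𝓝 0) := by
  have key : ∀ m, Tendsto (fun n => p n 1 - p n (m + 1)) atTop (𝓝 0) := by
    intro m
    induction m with
    | zero => simp
    | succ m ih => simpa using ih.add (step m)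
  obtain ⟨a, rfl⟩ := Nat.exists_eq_add_of_le' ha
  obtain ⟨b, rfl⟩ := Nat.exists_eq_add_of_le' hb
  simpa using (key b).sub (key a)

end Pool.Agent.H.MP_d8535d_co
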